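import Pool.Agent.Helper40.MC.Growth2
import Pool.Agent.Helper40.MC.WildM2
import Pool.Agent.Helper6.MS.Final

set_option autoImplicit false

namespace Pool.Agent.Results.MP_023469_lc.ModelThreshold

open FirstOrder Pool.Agent.Helper20.Spectra Pool.Agent.Helper58.QD Pool.Agent.Helper14.SS
open Pool.Agent.Helper40.MC (FinAP)
open Pool.Agent.Helper40.MCM

/-- For a first-order sentence `χ` or a sentence `φ` of monadic second-order logic, in the finitely
many relation symbols `S` (of the arities `ar`), let `count χ n`, `countM φ n` be the number of its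
models with universe `{0, ..., n - 1}`, and `spec χ`, `specM φ` its spectrum. `FinAP k A` says that
`A` is the union of a finite set and finitely many arithmetic progressions with differences at most
`k`.

(1) For each first-order or monadic second-order sentence there is a `K` such that, if there are at
most `n! / K ^ n` models for all large `n`, then the spectrum is ultimately periodic.
(2) But for every single `K` some first-order sentence in symbols of arities at most `2` with at most
`n! / K ^ n` models for all large `n` has a universal spectrum `U`: the first-order spectra are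
exactly the preimages of `U` under polynomials; and the spectra of the sentences with this property
are all rudimentary if and only if the spectra are exactly the rudimentary sets of positive integers.
Some monadic second-order sentence in symbols of arities at most `2` with at most `n! / K ^ n` models
for all large `n` has a spectrum which is not in the polynomial-time hierarchy, while the rudimentary
sets are in it.
(3) If `c < 1`, the spectra of the first-order sentences with at most `n ^ (c n)` models for all
large `n`, and those of the monadic second-order sentences with this property, are exactly the sets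
of positive integers `A` with `FinAP k A`, `k = ⌊1 / (1 - c)⌋`. -/
theorem result :
    (∀ (S : Type) [Finite S] (ar : S → ℕ) (χ : (RelLang S ar).Sentence), ∃ K : ℕ,
      (∀ᶠ n : ℕ in Filter.atTop, count χ n * K ^ n ≤ n.factorial) →
        ∃ k, FinAP k (Pool.Agent.Helper40.MC.spec χ)) ∧
    (∀ (S : Type) [Finite S] (ar : S → ℕ) (φ : SFm (RelLang S ar) 0 0), ∃ K : ℕ,
      (∀ᶠ n : ℕ in Filter.atTop, countM φ n * K ^ n ≤ n.factorial) → ∃ k, FinAP k (specM φ)) ∧
    (∀ K : ℕ,
      ((∀ A : Set ℕ, FacSpectrum2 K A → IsRudimentary A) ↔
        ∀ A : Set ℕ, IsSpectrum A ↔ (IsRudimentary A ∧ 0 ∉ A)) ∧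
      (∃ U, FacSpectrum2 K U ∧ ∀ A : Set ℕ, IsSpectrum A ↔
        ∃ q : Polynomial ℕ, A = {n : ℕ | 1 ≤ n ∧ q.eval n ∈ U}) ∧
      ∃ A, MFacSpectrum2 K A ∧ ¬ PolyHier A) ∧
    (∀ A : Set ℕ, IsRudimentary A → PolyHier A) ∧
    ∀ c : ℝ, c < 1 → ∀ A : Set ℕ,
      (CountSpectrum c A ↔ 0 ∉ A ∧ FinAP ⌊1 / (1 - c)⌋₊ A) ∧
      (MCountSpectrum c A ↔ 0 ∉ A ∧ FinAP ⌊1 / (1 - c)⌋₊ A) :=
  ⟨fun S _ ar χ => by
      obtain ⟨K, hK⟩ := Pool.Agent.Helper38.MS.borderM S ar (toM χ)
      rw [show countM (toM χ) = count χ from funext (countM_toM χ), specM_toM] at hK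
      exact ⟨K, hK⟩,
    fun S _ ar φ => Pool.Agent.Helper38.MS.borderM S ar φ,
    fun K => ⟨(wild_fac2 K).2, (wild_fac2 K).1, wild_facM2 K⟩,
    Pool.Agent.Helper14.QG.rudPH,
    fun c hc A => staircase stmtTameM0 hc A⟩

end Pool.Agent.Results.MP_023469_lc.ModelThreshold
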