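import Pool.Agent.Helper38.EX.PVClause2

set_option autoImplicit false

namespace Pool.Agent.Results.MP_023469_lc.PrefixVocabulary

open Pool.Agent.Helper20.Spectra Pool.Agent.Helper20.OP Pool.Agent.Helper20.PV

/-- Classification of all prefix-vocabulary classes (with equality). The class of the word `q` of
`r` quantifiers, of the arities `ar 0, …, ar (k - 1)` of the function symbols (arity `0`: constant
symbols), and of `mon` (true: the relation symbols have arity at most one; false: no restriction)
consists of the spectra of the sentences `Q₀ x₀ … Q_{r-1} x_{r-1} ψ`, `ψ` quantifier-free.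
In a wild class one spectrum `U` is universal (the spectra are exactly its preimages under
polynomials), all spectra of the class are rudimentary if and only if the spectra are exactly
the rudimentary sets of positive integers, and the class is neither the class of the rudimentary
sets of positive integers nor the class of all spectra. In every other class all spectra are
ultimately periodic, and finite or cofinite if all function symbols are constants. -/
theorem result :
    ∀ (q : ℕ → Bool) (r k : ℕ) (ar : Fin k → ℕ) (mon : Bool),
      (WildClass q r ar mon →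
        (∃ U : Set ℕ, VocSpectrum q r ar mon U ∧ ∀ A : Set ℕ, IsSpectrum A ↔
          ∃ h : Polynomial ℕ, A = {n : ℕ | 1 ≤ n ∧ h.eval n ∈ U}) ∧
        ((∀ A : Set ℕ, VocSpectrum q r ar mon A → IsRudimentary A) ↔
          ∀ A : Set ℕ, IsSpectrum A ↔ (IsRudimentary A ∧ 0 ∉ A)) ∧
        (¬ ∀ A : Set ℕ, VocSpectrum q r ar mon A ↔ (IsRudimentary A ∧ 0 ∉ A)) ∧
        (¬ ∀ A : Set ℕ, VocSpectrum q r ar mon A ↔ IsSpectrum A)) ∧
      (¬ WildClass q r ar mon →
        (∀ A : Set ℕ, VocSpectrum q r ar mon A → UltPeriodic A) ∧
        ((∀ i, ar i = 0) → ∀ A : Set ℕ, VocSpectrum q r ar mon A → A.Finite ∨ Aᶜ.Finite)) := by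
  intro q r k ar mon
  obtain ⟨h1, h2⟩ := pv_main q r k ar mon
  exact ⟨fun h => ⟨(h1 h).1, (h1 h).2, Pool.Agent.Helper38.EX.pv_ne_rud q r k ar mon,
    Pool.Agent.Helper38.EX.pv_ne_spectra q r k ar mon⟩, h2⟩

end Pool.Agent.Results.MP_023469_lc.PrefixVocabulary
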